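import Mathlib
import Pool.Agent.Q166.RGFW

/-!
# MP_2348bc_co: the patterns 1121 and 1211 are k-Wilf equivalent for every k
-/

set_option autoImplicit false

open scoped Classical

namespace Pool.Agent.Results.MP_2348bc_co.AllK

/-- The word `w` of length `n` is a restricted growth function: positive letters, first letter `1`,
and every other letter is at most `1` plus the maximum of the preceding letters. -/
def IsRGF {n : ℕ} (w : Fin n → ℕ) : Prop :=
  (∀ i, 1 ≤ w i) ∧ (∀ i : Fin n, i.val = 0 → w i = 1) ∧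
    ∀ i : Fin n, 0 < i.val → w i ≤ 1 + (Finset.univ.filter (· < i)).sup w

/-- The number of copies of the pattern `v` in the word `w`: position sets, given as strictly
increasing maps of positions, whose subword is in the same relative order as `v`. -/
noncomputable def copies {m n : ℕ} (v : Fin m → ℕ) (w : Fin n → ℕ) : ℕ :=
  Nat.card {p : Fin m ↪o Fin n // ∀ a b,
    (w (p a) < w (p b) ↔ v a < v b) ∧ (w (p a) = w (p b) ↔ v a = v b)}

/-- `R_{n,k}(v)`: the restricted growth functions of length `n` with exactly `k` copies of `v`. -/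
def R {m : ℕ} (n k : ℕ) (v : Fin m → ℕ) : Set (Fin n → ℕ) :=
  {w | IsRGF w ∧ copies v w = k}

theorem isRGF_iff {n : ℕ} (w : Fin n → ℕ) : IsRGF w ↔ Q166.RGFW.RG w := by
  constructor
  · rintro ⟨h1, h2, h3⟩ i
    refine ⟨h1 i, ?_⟩
    rcases Nat.eq_zero_or_pos i.val with h | h
    · exact Or.inl (h2 i h)
    · right
      have hne : (Finset.univ.filter (· < i)).Nonempty :=
        ⟨⟨0, by omega⟩, Finset.mem_filter.2 ⟨Finset.mem_univ _, h⟩⟩
      obtain ⟨j, hj, hj'⟩ := Finset.exists_mem_eq_sup _ hne w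
      have := h3 i h
      rw [hj'] at this
      refine ⟨j, by simpa using hj, by omega⟩
  · intro h
    refine ⟨fun i => (h i).1, ?_, ?_⟩
    · intro i hi
      rcases (h i).2 with h' | ⟨j, hj, _⟩
      · exact h'
      · rw [Fin.lt_def] at hj; omega
    · intro i _
      rcases (h i).2 with h' | ⟨j, hj, h'⟩
      · omega
      · have : w j ≤ (Finset.univ.filter (· < i)).sup w := Finset.le_sup (by simpa using hj)
        omega

theorem rgf_le {n : ℕ} {w : Fin n → ℕ} (hw : Q166.RGFW.RG w) (i : Fin n) : w i ≤ n := by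
  have key : ∀ k : ℕ, ∀ i : Fin n, i.val = k → w i ≤ k + 1 := by
    intro k
    induction k using Nat.strong_induction_on with
    | _ k ih =>
      intro i hi
      rcases (hw i).2 with h | ⟨j, hj, h⟩
      · omega
      · rw [Fin.lt_def] at hj
        have := ih j.val (by omega) j rfl
        omega
  have := key i.val i rfl
  have := i.2
  omega

theorem R_finite {m : ℕ} (n k : ℕ) (v : Fin m → ℕ) : (R n k v).Finite := by
  apply Set.Finite.subset (Set.finite_Icc (0 : Fin n → ℕ) (fun _ => n))
  rintro w ⟨hw, _⟩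
  rw [isRGF_iff] at hw
  exact ⟨fun i => Nat.zero_le _, fun i => rgf_le hw i⟩

/-- the two patterns -/
def pat (s : Bool) : Fin 4 → ℕ := if s then ![1, 2, 1, 1] else ![1, 1, 2, 1]

theorem copies_eq {n : ℕ} (s : Bool) (w : Fin n → ℕ) :
    copies (pat s) w = Q166.RGFW.N s w := by
  unfold copies Q166.RGFW.N
  rw [← Nat.card_coe_set_eq]
  have hP : ∀ p : Fin 4 ↪o Fin n, (∀ a b,
      (w (p a) < w (p b) ↔ pat s a < pat s b) ∧ (w (p a) = w (p b) ↔ pat s a = pat s b)) ↔
      (p 0, p 1, p 2, p 3) ∈ Q166.RGFW.T s w := by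
    intro p
    constructor
    · intro h
      refine ⟨⟨p.lt_iff_lt.2 (by decide), p.lt_iff_lt.2 (by decide), p.lt_iff_lt.2 (by decide)⟩,
        ?_, ?_, ?_⟩
      · exact (h 0 3).2.2 (by cases s <;> rfl)
      · cases s
        · exact (h 0 1).2.2 rfl
        · exact (h 0 2).2.2 rfl
      · cases s
        · exact (h 0 2).1.2 (by decide)
        · exact (h 0 1).1.2 (by decide)
    · rintro ⟨_, h4, h5, h6⟩
      cases s
      · simp only [Q166.RGFW.sel, Q166.RGFW.oth, Bool.false_eq_true, if_false] at h4 h5 h6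
        intro a b
        fin_cases a <;> fin_cases b <;> simp [pat] <;> omega
      · simp only [Q166.RGFW.sel, Q166.RGFW.oth, if_true] at h4 h5 h6
        intro a b
        fin_cases a <;> fin_cases b <;> simp [pat] <;> omega
  apply Nat.card_eq_of_bijective
    (fun p : {p : Fin 4 ↪o Fin n // ∀ a b,
      (w (p a) < w (p b) ↔ pat s a < pat s b) ∧ (w (p a) = w (p b) ↔ pat s a = pat s b)} =>
      (⟨(p.1 0, p.1 1, p.1 2, p.1 3), (hP p.1).1 p.2⟩ : Q166.RGFW.T s w))
  constructor
  · intro p p' h
    simp only [Subtype.mk.injEq, Prod.mk.injEq] at h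
    apply Subtype.ext
    apply DFunLike.ext
    intro a
    fin_cases a
    · exact h.1
    · exact h.2.1
    · exact h.2.2.1
    · exact h.2.2.2
  · rintro ⟨t, ht⟩
    have hm : StrictMono ![t.1, t.2.1, t.2.2.1, t.2.2.2] := by
      rw [Fin.strictMono_iff_lt_succ]
      intro i
      obtain ⟨⟨h1, h2, h3⟩, _⟩ := ht
      fin_cases i
      · exact h1
      · exact h2
      · exact h3
    refine ⟨⟨OrderEmbedding.ofStrictMono _ hm, (hP _).2 ?_⟩, ?_⟩
    · exact ht
    · rfl

/-- The two patterns `1121` and `1211` are distinct restricted growth functions, and for all `n` and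
`k` there are as many restricted growth functions of length `n` with exactly `k` copies of `1121` as
with exactly `k` copies of `1211`. -/
theorem result :
    IsRGF ![1, 1, 2, 1] ∧ IsRGF ![1, 2, 1, 1] ∧ (![1, 1, 2, 1] : Fin 4 → ℕ) ≠ ![1, 2, 1, 1] ∧
    ∀ n k : ℕ, (R n k ![1, 1, 2, 1]).Finite ∧ (R n k ![1, 2, 1, 1]).Finite ∧
      (R n k ![1, 1, 2, 1]).ncard = (R n k ![1, 2, 1, 1]).ncard := by
  refine ⟨?_, ?_, ?_, ?_⟩
  · unfold IsRGF; decide
  · unfold IsRGF; decide
  · decide
  · intro n k
    refine ⟨R_finite _ _ _, R_finite _ _ _, ?_⟩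
    obtain ⟨e, he⟩ := Q166.RGFW.main n
    rw [← Nat.card_coe_set_eq, ← Nat.card_coe_set_eq]
    have h : ∀ s : Bool, Nat.card (R n k (pat s)) =
        Nat.card {w : Q166.RGFW.R (Fin n) // Q166.RGFW.N s w.1 = k} := by
      intro s
      apply Nat.card_congr
      refine ⟨fun w => ⟨⟨w.1, (isRGF_iff _).1 w.2.1⟩, by rw [← copies_eq]; exact w.2.2⟩,
        fun w => ⟨w.1.1, (isRGF_iff _).2 w.1.2, by rw [copies_eq]; exact w.2⟩, ?_, ?_⟩
      · intro w; rfl
      · intro w; rfl
    have h1 := h false
    have h2 := h true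
    simp only [pat, Bool.false_eq_true, if_false, if_true] at h1 h2
    rw [h1, h2]
    apply Nat.card_congr
    exact Equiv.subtypeEquiv e (fun w => by rw [he])

end Pool.Agent.Results.MP_2348bc_co.AllK
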